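import Mathlib
import Pool.Agent.C2.Stmts

/-!
# Squad C2 (table c2m), row ABT (helper95): sum over the borders orthogonal to a kernel vector
-/

set_option autoImplicit false

namespace Pool.Agent.C2.H95

open Finset Pool.Agent.C2

theorem bd_mul {F : Type} [Field F] {X J : Type} [Fintype X] [DecidableEq X] [Fintype J]
    (o : J → X) (b : J → F) (k : X → F) :
    ∑ x, bd o b x * k x = ∑ j, b j * k (o j) := by
  unfold bd
  simp only [Finset.sum_mul]
  rw [Finset.sum_comm]
  refine Finset.sum_congr rfl fun j _ => ?_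
  rw [Finset.sum_eq_single (o j)]
  · simp
  · intro x _ hx
    rw [if_neg (fun h => hx h.symm), zero_mul]
  · intro h
    exact absurd (Finset.mem_univ _) h

/-- the first sum -/
theorem sum_one (h1 : KdwStmt) (F : Type) [Field F] [Fintype F] [DecidableEq F] (J : Type)
    [Fintype J] [DecidableEq J] (hJ : Fintype.card J = 4) (κ : J → F) :
    ∑ b : J → F, (if ∑ j, b j * κ j = 0 then wt b else 0) =
      if ∀ j, κ j ≠ 0 then (Fintype.card F : ℤ) ^ 3 * ((Fintype.card F : ℤ) - 1) else 0 := by
  classical
  have hq : (Fintype.card F : ℤ) ≠ 0 := by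
    have := Fintype.card_pos (α := F)
    omega
  have h := h1 F J Empty Unit (fun j _ => κ j) (fun i _ => i.elim)
  have hL : ∀ b : J → F, wt b * (Nat.card {x : Empty → F // ∀ y : Unit,
      ∑ n, b n * κ n + ∑ i : Empty, x i * (i.elim : F) = 0} : ℤ) =
      if ∑ j, b j * κ j = 0 then wt b else 0 := by
    intro b
    by_cases hb : ∑ j, b j * κ j = 0
    · rw [if_pos hb]
      have e : Nat.card {x : Empty → F // ∀ y : Unit,
          ∑ n, b n * κ n + ∑ i : Empty, x i * (i.elim : F) = 0} = 1 := by
        rw [Nat.card_eq_one_iff_unique]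
        refine ⟨⟨fun x y => Subtype.ext (funext fun i => i.elim)⟩, ⟨⟨fun i => i.elim, ?_⟩⟩⟩
        intro _
        simp [hb]
      rw [e]
      simp
    · rw [if_neg hb]
      have e : Nat.card {x : Empty → F // ∀ y : Unit,
          ∑ n, b n * κ n + ∑ i : Empty, x i * (i.elim : F) = 0} = 0 := by
        rw [Nat.card_eq_zero]
        left
        refine ⟨fun x => hb ?_⟩
        have := x.2 ()
        simpa using this
      rw [e]
      simp
  have hR : (Nat.card {z : Unit → F // (∀ i : Empty, ∑ y : Unit, (i.elim : F) * z y = 0) ∧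
      ∀ n, ∑ y : Unit, κ n * z y ≠ 0} : ℤ) =
      if ∀ j, κ j ≠ 0 then (Fintype.card F : ℤ) - 1 else 0 := by
    by_cases hk : ∀ j, κ j ≠ 0
    · rw [if_pos hk]
      have e : {z : Unit → F // (∀ i : Empty, ∑ y : Unit, (i.elim : F) * z y = 0) ∧
          ∀ n, ∑ y : Unit, κ n * z y ≠ 0} ≃ {a : F // a ≠ 0} :=
        { toFun := fun z => ⟨z.1 (), by
            have hn : Nonempty J := Fintype.card_pos_iff.1 (by omega)
            obtain ⟨j⟩ := hn
            have := z.2.2 j
            simp only [Finset.univ_unique, Finset.sum_singleton] at this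
            exact fun h0 => this (by rw [show z.1 default = z.1 () from rfl, h0, mul_zero])⟩
          invFun := fun a => ⟨fun _ => a.1, ⟨fun i => i.elim, fun n => by
            simp only [Finset.univ_unique, Finset.sum_singleton]
            exact mul_ne_zero (hk n) a.2⟩⟩
          left_inv := fun z => Subtype.ext (funext fun _ => rfl)
          right_inv := fun a => rfl }
      rw [Nat.card_congr e, Nat.card_eq_fintype_card, Fintype.card_subtype_compl,
        Fintype.card_subtype_eq]
      have := Fintype.card_pos (α := F)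
      push_cast [Nat.cast_sub (show 1 ≤ Fintype.card F from this)]
      ring
    · rw [if_neg hk]
      have e : Nat.card {z : Unit → F // (∀ i : Empty, ∑ y : Unit, (i.elim : F) * z y = 0) ∧
          ∀ n, ∑ y : Unit, κ n * z y ≠ 0} = 0 := by
        rw [Nat.card_eq_zero]
        left
        refine ⟨fun z => hk fun j hj => ?_⟩
        apply z.2.2 j
        simp [hj]
      rw [e]
      simp
  rw [hR, Finset.sum_congr rfl (fun b _ => hL b)] at h
  simp only [Fintype.card_unit, pow_one, Fintype.card_empty, add_zero, hJ] at h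
  apply mul_left_cancel₀ hq
  rw [h]
  split_ifs
  · ring
  · ring

/-- the second sum -/
theorem sum_two (h1 : KdwStmt) (F : Type) [Field F] [Fintype F] [DecidableEq F] (X J : Type)
    [Fintype X] [DecidableEq X] [Fintype J] [DecidableEq J] (o : J → X) (B : Matrix X X F)
    (hB : ∀ x y, B x y = B y x) (hJ : Fintype.card J = 4) :
    ∑ b : J → F, wt b * (rB (bd o b) B : ℤ) = (Fintype.card F : ℤ) ^ 4 * (kO B o : ℤ) := by
  have hq : (Fintype.card F : ℤ) ≠ 0 := by
    have := Fintype.card_pos (α := F)
    omega
  have h := h1 F J X X (fun j x => if o j = x then 1 else 0) (fun x y => B x y)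
  have hL : ∀ b : J → F, (Nat.card {x : X → F // ∀ y,
      ∑ n, b n * (if o n = y then (1 : F) else 0) + ∑ i, x i * B i y = 0}) =
      rB (bd o b) B := by
    intro b
    unfold rB bd
    apply Nat.card_congr
    apply Equiv.subtypeEquivRight
    intro u
    apply forall_congr'
    intro y
    have e1 : ∑ n, b n * (if o n = y then (1 : F) else 0) = ∑ n, if o n = y then b n else 0 := by
      refine Finset.sum_congr rfl fun n _ => ?_
      split_ifs <;> simp
    have e2 : ∑ i, u i * B i y = ∑ i, B y i * u i := by
      refine Finset.sum_congr rfl fun i _ => ?_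
      rw [hB i y, mul_comm]
    rw [e1, e2, add_comm]
  have hR : Nat.card {z : X → F // (∀ i, ∑ y, B i y * z y = 0) ∧
      ∀ n, ∑ y, (if o n = y then (1 : F) else 0) * z y ≠ 0} = kO B o := by
    unfold kO
    apply Nat.card_congr
    apply Equiv.subtypeEquivRight
    intro u
    have e1 : ∀ n, ∑ y, (if o n = y then (1 : F) else 0) * u y = u (o n) := by
      intro n
      simp
    simp only [e1]
  rw [hR, Finset.sum_congr rfl (fun b _ => by rw [hL b])] at h
  rw [hJ, pow_add] at h
  apply mul_left_cancel₀ (pow_ne_zero (Fintype.card X) hq)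
  rw [h]
  ring

theorem abt (h1 : KdwStmt) (h2 : Ak2Stmt) : AbtStmt := by
  classical
  intro F _ _ _ X J _ _ _ _ o B k hB hJ hk
  have hq : (Fintype.card F : ℤ) ≠ 0 := by
    have := Fintype.card_pos (α := F)
    omega
  have s1 := sum_one h1 F J hJ (fun j => k (o j))
  have s2 := sum_two h1 F X J o B hB hJ
  -- kernel vectors are orthogonal to the borders with a solution
  have horth : ∀ b : J → F, (rB (bd o b) B : ℤ) ≠ 0 → ∑ j, b j * k (o j) = 0 := by
    intro b hb
    have hb' : rB (bd o b) B ≠ 0 := by
      intro h0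
      apply hb
      rw [h0]
      rfl
    unfold rB at hb'
    have hne : Nonempty {u : X → F // ∀ x, ∑ y, B x y * u y + bd o b x = 0} := by
      by_contra hcon
      rw [not_nonempty_iff] at hcon
      exact hb' (Nat.card_eq_zero.2 (Or.inl hcon))
    obtain ⟨u, hu⟩ := hne
    rw [← bd_mul]
    have e1 : ∑ x, (∑ y, B x y * u y + bd o b x) * k x = 0 := by
      apply Finset.sum_eq_zero
      intro x _
      rw [hu x, zero_mul]
    have e2 : ∑ x, (∑ y, B x y * u y) * k x = 0 := by
      simp only [Finset.sum_mul]
      rw [Finset.sum_comm]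
      apply Finset.sum_eq_zero
      intro y _
      have e3 : ∑ x, B x y * u y * k x = u y * ∑ x, B y x * k x := by
        rw [Finset.mul_sum]
        refine Finset.sum_congr rfl fun x _ => ?_
        rw [hB x y]
        ring
      rw [e3, hk y, mul_zero]
    simp only [add_mul, Finset.sum_add_distrib] at e1
    rw [e2, zero_add] at e1
    exact e1
  have hterm : ∀ b : J → F, (Fintype.card F : ℤ) *
      ∑ a : F, (if ∑ x, bd o b x * k x = 0 then wt b * (cE a (bd o b) B : ℤ) ^ 2 else 0) =
      (kB B : ℤ) ^ 2 * (if ∑ j, b j * k (o j) = 0 then wt b else 0) +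
      ((Fintype.card F : ℤ) ^ 3 + (Fintype.card F : ℤ) ^ 2 - (Fintype.card F : ℤ) - 1) *
        (kB B : ℤ) * (wt b * (rB (bd o b) B : ℤ)) := by
    intro b
    have hak := h2 F X (bd o b) B hB
    rw [bd_mul]
    by_cases hb : ∑ j, b j * k (o j) = 0
    · simp only [hb, if_true]
      rw [← Finset.mul_sum]
      calc (Fintype.card F : ℤ) * (wt b * ∑ a : F, (cE a (bd o b) B : ℤ) ^ 2)
          = wt b * ((Fintype.card F : ℤ) * ∑ a : F, (cE a (bd o b) B : ℤ) ^ 2) := by ring
        _ = _ := by
          rw [hak]
          ring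
    · simp only [if_neg hb]
      have h0 : (rB (bd o b) B : ℤ) = 0 := by
        by_contra hcon
        exact hb (horth b hcon)
      rw [h0]
      simp
  apply mul_left_cancel₀ hq
  rw [Finset.mul_sum, Finset.sum_congr rfl (fun b _ => hterm b), Finset.sum_add_distrib,
    ← Finset.mul_sum, ← Finset.mul_sum, s2, s1]
  by_cases hkk : ∀ j, k (o j) ≠ 0
  · rw [if_pos hkk, if_pos hkk]
    ring
  · rw [if_neg hkk, if_neg hkk]
    ring

end Pool.Agent.C2.H95
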